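import Mathlib
import Pool.Agent.Q74.LogPot.Annulus

/-! # MP_ccba21_an, Q2: the reverse Faber-Krahn inequality at fixed transfinite diameter is false

For every `R > 1` thin annuli `{r < |z| < R}` have transfinite diameter `R`, as the disc `B_R`, while their
negative eigenvalue is arbitrarily close to zero. -/

set_option autoImplicit false

open MeasureTheory Filter Topology Finset
open scoped ENNReal

namespace Pool.Agent.Results.MP_ccba21_an.ThinAnnuli

/-- The logarithmic potential operator `(L_Ω u)(x) = ∫_Ω log(1/|x-y|) u(y) dy` (the plane is `ℂ`). -/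
noncomputable def logPotential (Ω : Set ℂ) (u : ℂ → ℝ) (x : ℂ) : ℝ :=
  ∫ y in Ω, Real.log (1 / ‖x - y‖) * u y

/-- `τ` is an eigenvalue of `L_Ω` on `L²(Ω)`. -/
def IsEigenvalue (Ω : Set ℂ) (τ : ℝ) : Prop :=
  ∃ u : ℂ → ℝ, MemLp u 2 (volume.restrict Ω) ∧ (¬ u =ᵐ[volume.restrict Ω] 0) ∧
    ∀ᵐ x ∂(volume.restrict Ω), logPotential Ω u x = τ * u x

/-- The negative eigenvalue of `L_Ω` (the infimum of the negative eigenvalues), or `0` if there is none. -/
noncomputable def tau (Ω : Set ℂ) : ℝ := sInf (insert 0 {τ : ℝ | τ < 0 ∧ IsEigenvalue Ω τ})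

/-- The product of the mutual distances of `n` points. -/
noncomputable def distProd {n : ℕ} (z : Fin n → ℂ) : ℝ := ∏ i, ∏ j ∈ Ioi i, ‖z i - z j‖

/-- The maximal product of mutual distances of `n` points of `E`. -/
noncomputable def fekete (E : Set ℂ) (n : ℕ) : ℝ := sSup (distProd '' {z : Fin n → ℂ | ∀ i, z i ∈ E})

/-- The transfinite diameter of `E` is `T`. -/
def IsTransfiniteDiameter (E : Set ℂ) (T : ℝ) : Prop :=
  Tendsto (fun n : ℕ => fekete E n ^ (2 / ((n : ℝ) * ((n : ℝ) - 1)))) atTop (𝓝 T)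

/-- The open annulus `r < |z| < R`. -/
def annulus (r R : ℝ) : Set ℂ := {z | r < ‖z‖ ∧ ‖z‖ < R}

/-- For every `R > 1` the disc `B_R` has transfinite diameter `R` and a negative eigenvalue, and for every
`ε > 0` there is an annulus `{r < |z| < R}`, a bounded domain with transfinite diameter `R`, all of whose
negative eigenvalues are greater than `-ε` and greater than the one of `B_R`. -/
theorem result : ∀ R : ℝ, 1 < R →
    IsTransfiniteDiameter (closure (Metric.ball 0 R)) R ∧
    (∃ τ : ℝ, τ < 0 ∧ IsEigenvalue (Metric.ball 0 R) τ) ∧ tau (Metric.ball 0 R) < 0 ∧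
    ∀ ε : ℝ, 0 < ε → ∃ r : ℝ, 0 < r ∧ r < R ∧
      IsOpen (annulus r R) ∧ IsConnected (annulus r R) ∧ Bornology.IsBounded (annulus r R) ∧
      IsTransfiniteDiameter (closure (annulus r R)) R ∧
      -ε < tau (annulus r R) ∧ tau (Metric.ball 0 R) < tau (annulus r R) := by
  intro R hR
  have hR0 : 0 < R := by linarith
  obtain ⟨τ, u, hτ, hu, hu0, hev⟩ := Q74.LogPot.exists_eigen_ball hR
  have hball : IsEigenvalue (Metric.ball 0 R) τ := ⟨u, hu, hu0, hev⟩
  -- the negative eigenvalues of the disc are bounded below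
  have hbdd : BddBelow (insert 0 {τ : ℝ | τ < 0 ∧ IsEigenvalue (Metric.ball 0 R) τ}) := by
    set Q := ∫⁻ z in Metric.closedBall (0 : ℂ) (2 * R), ENNReal.ofReal (Real.log ‖z‖ ^ 2)
    set S : ℝ≥0∞ := ENNReal.ofReal 1 * volume (Metric.ball (0 : ℂ) R) + ENNReal.ofReal (1 / 1) * Q with hS
    have hSt : S ≠ ⊤ := (ENNReal.add_lt_top.2 ⟨ENNReal.mul_lt_top ENNReal.ofReal_lt_top
      measure_ball_lt_top, ENNReal.mul_lt_top ENNReal.ofReal_lt_top
      (Q74.LogPot.lintegral_log_sq_lt_top _)⟩).ne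
    refine ⟨-S.toReal, ?_⟩
    rintro σ (rfl | ⟨hσ, v, hv, hv0, hev'⟩)
    · have := ENNReal.toReal_nonneg (a := S)
      linarith
    · have h1 := Q74.LogPot.eigen_bound measurableSet_ball Metric.ball_subset_closedBall
        (fun y hy => Q74.LogPot.lintegral_log_le measurableSet_ball Metric.ball_subset_closedBall hy one_pos)
        hv hv0 hev'
      rw [Real.enorm_eq_ofReal_abs, ENNReal.ofReal_le_iff_le_toReal hSt, abs_of_neg hσ] at h1
      linarith
  have htau : tau (Metric.ball 0 R) < 0 :=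
    lt_of_le_of_lt (csInf_le hbdd (Set.mem_insert_of_mem _ ⟨hτ, hball⟩)) hτ
  refine ⟨Q74.LogPot.transfiniteDiameter_of_between hR0
    (closure_minimal Metric.ball_subset_closedBall Metric.isClosed_closedBall) ?_, ⟨τ, hτ, hball⟩, htau, ?_⟩
  · rw [closure_ball 0 hR0.ne']
    exact Metric.sphere_subset_closedBall
  intro ε hε
  set δ : ℝ := min ε (-tau (Metric.ball 0 R)) with hδ
  have hδ0 : 0 < δ := lt_min hε (by linarith)
  obtain ⟨r, hr0, hrR, hS⟩ := Q74.LogPot.exists_thin hR0 (show 0 < δ / 2 by linarith)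
  have hlow : -(δ / 2) ≤ tau (annulus r R) := by
    refine le_csInf ⟨0, Set.mem_insert _ _⟩ ?_
    rintro σ (rfl | ⟨hσ, v, hv, hv0, hev'⟩)
    · linarith
    · have h1 := Q74.LogPot.eigen_bound (Q74.LogPot.isOpen_annulus r R).measurableSet
        (Q74.LogPot.annulus_subset r R) hS hv hv0 hev'
      rw [Real.enorm_eq_ofReal_abs, ENNReal.ofReal_le_ofReal_iff (by linarith), abs_of_neg hσ] at h1
      linarith
  have h1 : δ ≤ ε := min_le_left _ _
  have h2 : δ ≤ -tau (Metric.ball 0 R) := min_le_right _ _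
  exact ⟨r, hr0, hrR, Q74.LogPot.isOpen_annulus r R, Q74.LogPot.isConnected_annulus hr0 hrR,
    Metric.isBounded_closedBall.subset (Q74.LogPot.annulus_subset r R),
    Q74.LogPot.transfiniteDiameter_annulus hr0 hrR, by linarith, by linarith⟩

end Pool.Agent.Results.MP_ccba21_an.ThinAnnuli
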